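import Mathlib
import Pool.Agent.Helper602.Growth.Defs
import Pool.Agent.Helper602.Growth.QDefs
import Pool.Agent.Helper602.Growth.JD2
import Pool.Agent.Helper602.Growth.N13
import Pool.Agent.Helper602.Growth.N14
import Pool.Agent.Helper602.Growth.E3
import Pool.Agent.Helper602.Growth.E4
import Pool.Agent.Helper602.Growth.Pos
import Pool.Agent.Helper602.Growth.Neg

set_option autoImplicit false

namespace Pool.Agent.Results.MP_b3b911_al.APointGroups

open Filter Topology Pool.Agent.Helper602.Growth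

theorem sign_case (G : Type) [Group G] (S : Finset G) (hS : Subgroup.closure (S : Set G) = ⊤)
    (h : ∃ A : Subgroup G, A.index ≠ 0 ∧ (∀ u ∈ A, ∀ v ∈ A, u * v = v * u) ∧
      ∀ g : G, (∀ a ∈ A, g * a * g⁻¹ = a) ∨ (∀ a ∈ A, g * a * g⁻¹ = a⁻¹))
    (d : ℕ) (hd : HasDegree S d) : ∃ c L : ℝ, SecondTerm S d c L := by
  obtain ⟨A, hidx, hA, hact⟩ := h
  have hfg : Group.FG G := Group.fg_iff.mpr ⟨S, hS, S.finite_toSet⟩
  obtain ⟨A₀, iA, iM, ε, p, ψ, hψ, hp, hfin⟩ := E4.exists_cocycle_general G hfg A hidx hA hact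
  have hQ := E3.beta_QP_cocycle ε p hp hfin S
  obtain ⟨c, hc, hlow⟩ := N13.poly_lower S hS ψ hψ
  obtain ⟨c₁, L, hc₁, hL⟩ := N14.secondTerm_of_QP S _ hQ c hc hlow
  have hd' := JD2.hasDegree_of_tendsto S _ c₁ hc₁ hL.1
  have hnd : d = Module.finrank ℤ A₀ := by
    unfold HasDegree at hd hd'
    rw [hd] at hd'
    exact_mod_cast hd'
  subst hnd
  exact ⟨c₁, L, hL⟩

/-- First part: the second order term exists for every generating set if `G` has an abelian
subgroup of finite index on which every element acts as the identity or as inversion.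
Second part: in each degree `d ≥ 2` it exists for all pairs with an abelian subgroup of index at
most `m` if and only if `m ≤ 2`. -/
theorem result :
    (∀ (G : Type) [Group G] (S : Finset G), Subgroup.closure (S : Set G) = ⊤ →
      (∃ A : Subgroup G, A.index ≠ 0 ∧ (∀ u ∈ A, ∀ v ∈ A, u * v = v * u) ∧
        ∀ g : G, (∀ a ∈ A, g * a * g⁻¹ = a) ∨ (∀ a ∈ A, g * a * g⁻¹ = a⁻¹)) →
      ∀ d : ℕ, HasDegree S d → ∃ c L : ℝ, SecondTerm S d c L) ∧
    ∀ d : ℕ, 2 ≤ d → ∀ m : ℕ,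
      ((∀ (G : Type) [Group G] (S : Finset G), Subgroup.closure (S : Set G) = ⊤ →
        (∃ A : Subgroup G, (A.index ≠ 0 ∧ A.index ≤ m) ∧ ∀ u ∈ A, ∀ v ∈ A, u * v = v * u) →
          HasDegree S d → ∃ c L : ℝ, SecondTerm S d c L) ↔ m ≤ 2) := by
  refine ⟨fun G _ S hS h d hd => sign_case G S hS h d hd, ?_⟩
  intro d hd m
  constructor
  · intro h
    by_contra hm
    obtain ⟨e, rfl⟩ : ∃ e, d = e + 2 := ⟨d - 2, by omega⟩
    obtain ⟨Γ, hΓ, T, hT, ⟨A, ⟨hA0, hA3⟩, hA⟩, hdT, hno⟩ := index_three e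
    exact hno (h Γ T hT ⟨A, ⟨hA0, by omega⟩, hA⟩ hdT)
  · intro hm G _ S hS ⟨A, ⟨hA0, hAm⟩, hA⟩ hdeg
    exact index_two_all G S hS ⟨A, ⟨hA0, by omega⟩, hA⟩ d hdeg

end Pool.Agent.Results.MP_b3b911_al.APointGroups
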