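import Mathlib
import Pool.Agent.Helper602.Growth.Defs
import Pool.Agent.Helper602.Growth.Pos
import Pool.Agent.Helper602.Growth.Neg

set_option autoImplicit false

namespace Pool.Agent.Results.MP_b3b911_al.AbelianIndexTwo

open Filter Topology Pool.Agent.Helper602.Growth

/-- Let `d ≥ 2`. Every pair `(G, S)` of degree `d`, where `G` has an abelian subgroup of index at
most `m`, has a second order term if and only if `m ≤ 2`. -/
theorem result (d : ℕ) (hd : 2 ≤ d) (m : ℕ) :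
    (∀ (G : Type) [Group G] (S : Finset G), Subgroup.closure (S : Set G) = ⊤ →
      (∃ A : Subgroup G, (A.index ≠ 0 ∧ A.index ≤ m) ∧ ∀ u ∈ A, ∀ v ∈ A, u * v = v * u) →
        HasDegree S d → ∃ c L : ℝ, SecondTerm S d c L) ↔ m ≤ 2 := by
  constructor
  · intro h
    by_contra hm
    obtain ⟨e, rfl⟩ : ∃ e, d = e + 2 := ⟨d - 2, by omega⟩
    obtain ⟨Γ, hΓ, T, hT, ⟨A, ⟨hA0, hA3⟩, hA⟩, hdT, hno⟩ := index_three e
    exact hno (h Γ T hT ⟨A, ⟨hA0, by omega⟩, hA⟩ hdT)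
  · intro hm G _ S hS ⟨A, ⟨hA0, hAm⟩, hA⟩ hdeg
    exact index_two_all G S hS ⟨A, ⟨hA0, by omega⟩, hA⟩ d hdeg

end Pool.Agent.Results.MP_b3b911_al.AbelianIndexTwo
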