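import Mathlib
import Pool.Agent.Helper602.Growth.Defs
import Pool.Agent.Helper602.Growth.Low
import Pool.Agent.Helper602.Growth.High

set_option autoImplicit false

namespace Pool.Agent.Results.MP_b3b911_al.DegreeAtMostOne

open Filter Topology Pool.Agent.Helper602.Growth

/-- Every pair `(G, S)` with `G` virtually nilpotent of degree of growth `d` has a second order
term if and only if `d ≤ 1`. -/
theorem result (d : ℕ) :
    (∀ (G : Type) [Group G] (S : Finset G), Subgroup.closure (S : Set G) = ⊤ →
      (∃ H : Subgroup G, H.FiniteIndex ∧ Group.IsNilpotent H) → HasDegree S d →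
        ∃ c L : ℝ, SecondTerm S d c L) ↔ d ≤ 1 := by
  constructor
  · intro h
    by_contra hd
    obtain ⟨m, rfl⟩ : ∃ m, d = m + 2 := ⟨d - 2, by omega⟩
    obtain ⟨Γ, hΓ, T, T', hT, -, hab, hdT, -, hno, -⟩ := high_degree m
    exact hno (h Γ T hT (nilpotent_of_abelian hab) hdT)
  · intro hd G _ S hS hn hdeg
    exact low_degree d hd G S hS hn hdeg

end Pool.Agent.Results.MP_b3b911_al.DegreeAtMostOne
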