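import Mathlib
import Pool.Agent.Helper602.Growth.Defs
import Pool.Agent.Helper602.Growth.JD2
import Pool.Agent.Helper602.Growth.JF
import Pool.Agent.Helper602.Growth.JP1
import Pool.Agent.Helper602.Growth.JP2
import Pool.Agent.Helper602.Growth.JP3
import Pool.Agent.Helper602.Growth.High

set_option autoImplicit false

namespace Pool.Agent.Results.MP_b3b911_al.DependsOnGenerators

open Filter Topology Pool.Agent.Helper602.Growth Pool.Agent.Helper602.Growth.P3

/-- symmetrised generating set with the identity added -/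
def sym {G : Type} [Group G] [DecidableEq G] (S : Finset G) : Finset G :=
  insert 1 (S ∪ S.image (fun s => s⁻¹))

theorem beta_sym {G : Type} [Group G] [DecidableEq G] (S : Finset G) (k : ℕ) :
    beta (sym S) k = beta S k := by
  refine JP1.beta_eq_of S (sym S) ?_ ?_ k
  · intro s hs
    unfold sym
    exact Finset.mem_insert_of_mem (Finset.mem_union_left _ hs)
  · intro t ht
    unfold sym at ht
    rw [Finset.mem_insert, Finset.mem_union, Finset.mem_image] at ht
    rcases ht with h | h | ⟨s, hs, rfl⟩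
    · exact Or.inl h
    · exact Or.inr (Or.inl h)
    · right; right; simpa using hs

theorem sym_inv {G : Type} [Group G] [DecidableEq G] (S : Finset G) :
    ∀ t ∈ sym S, t⁻¹ ∈ sym S := by
  intro t ht
  unfold sym at ht ⊢
  rw [Finset.mem_insert, Finset.mem_union, Finset.mem_image] at ht ⊢
  rcases ht with h | h | ⟨s, hs, rfl⟩
  · left; rw [h, inv_one]
  · right; right; exact ⟨t, h, rfl⟩
  · right; left; simpa using hs

theorem one_sym {G : Type} [Group G] [DecidableEq G] (S : Finset G) : (1 : G) ∈ sym S :=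
  Finset.mem_insert_self _ _

theorem closure_sym {G : Type} [Group G] [DecidableEq G] (S : Finset G)
    (hS : Subgroup.closure (S : Set G) = ⊤) : Subgroup.closure ((sym S : Finset G) : Set G) = ⊤ := by
  rw [eq_top_iff, ← hS]
  apply Subgroup.closure_mono
  intro s hs
  have : s ∈ S := by exact_mod_cast hs
  have h2 : s ∈ sym S := Finset.mem_insert_of_mem (Finset.mem_union_left _ this)
  exact_mod_cast h2

/-- Let `(G, S)` be any pair, `G` virtually nilpotent, of degree `e`, having a second order term.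
Then the group `G × P3` has degree `e + 2` and has a generating set with a second order term and
a generating set without one. -/
theorem result (G : Type) [Group G] (S : Finset G) (hS : Subgroup.closure (S : Set G) = ⊤)
    (hn : ∃ H : Subgroup G, H.FiniteIndex ∧ Group.IsNilpotent H) (e : ℕ) (c₀ L₀ : ℝ)
    (hc₀ : 0 < c₀) (h : SecondTerm S e c₀ L₀) :
    (∃ H : Subgroup (G × P3), H.FiniteIndex ∧ Group.IsNilpotent H) ∧
    ∃ T T' : Finset (G × P3), Subgroup.closure (T : Set (G × P3)) = ⊤ ∧
      Subgroup.closure (T' : Set (G × P3)) = ⊤ ∧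
      HasDegree T (e + 2) ∧ HasDegree T' (e + 2) ∧
      (∃ c L : ℝ, SecondTerm T' (e + 2) c L) ∧
      (¬ ∃ c L : ℝ, SecondTerm T (e + 2) c L) := by
  classical
  refine ⟨JP2.prod_virtually_nilpotent hn (nilpotent_of_abelian JF.P3.exists_abelian), ?_⟩
  have hb1 : ∀ k, beta (sym S ×ˢ sym S₁) k = beta S k * beta S₁ k := by
    intro k
    rw [JP1.beta_prod (sym S) (sym S₁) (one_sym S) (one_sym S₁) (sym_inv S₁) k, beta_sym, beta_sym]
  have hb2 : ∀ k, beta (sym S ×ˢ sym S₂) k = beta S k * beta S₂ k := by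
    intro k
    rw [JP1.beta_prod (sym S) (sym S₂) (one_sym S) (one_sym S₂) (sym_inv S₂) k, beta_sym, beta_sym]
  obtain ⟨c, hc, hc1, hc2⟩ := JP3.asymp_prod_one (fun k => beta S₁ k) (fun k => beta S k) e
    (by
      intro n
      show ((beta S₁ (2 * n + 1) : ℕ) : ℤ) = _
      rw [beta_S₁_odd]
      push_cast
      ring) beta_S₁_even c₀ L₀ hc₀ h.1 h.2
  obtain ⟨c', hc', hc1', L', hc2'⟩ := JP3.asymp_prod_two (fun k => beta S₂ k) (fun k => beta S k) e
    beta_S₂ c₀ L₀ hc₀ h.1 h.2
  have e1 : (fun k : ℕ => beta S k * beta S₁ k) = fun k => beta (sym S ×ˢ sym S₁) k :=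
    funext fun k => (hb1 k).symm
  have e2 : (fun k : ℕ => beta S k * beta S₂ k) = fun k => beta (sym S ×ˢ sym S₂) k :=
    funext fun k => (hb2 k).symm
  have t1 : Tendsto (fun k : ℕ => (beta (sym S ×ˢ sym S₁) k : ℝ) / (k : ℝ) ^ (e + 2)) atTop
      (𝓝 c) := by
    refine hc1.congr fun k => ?_
    rw [hb1]
  have t2 : Tendsto (fun k : ℕ => (beta (sym S ×ˢ sym S₂) k : ℝ) / (k : ℝ) ^ (e + 2)) atTop
      (𝓝 c') := by
    refine hc1'.congr fun k => ?_
    rw [hb2]
  refine ⟨sym S ×ˢ sym S₁, sym S ×ˢ sym S₂,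
    JP1.closure_prod _ _ (one_sym S) (one_sym S₁) (closure_sym S hS) (closure_sym S₁ JF.P3.closure_S₁),
    JP1.closure_prod _ _ (one_sym S) (one_sym S₂) (closure_sym S hS) (closure_sym S₂ JF.P3.closure_S₂),
    JD2.hasDegree_of_tendsto _ (e + 2) c hc t1, JD2.hasDegree_of_tendsto _ (e + 2) c' hc' t2,
    ⟨c', L', t2, ?_⟩, ?_⟩
  · refine hc2'.congr fun k => ?_
    rw [hb2]
  · rintro ⟨c'', L, s1, s2⟩
    have he : c'' = c := tendsto_nhds_unique s1 t1
    subst he
    refine hc2 ⟨L, ?_⟩
    refine s2.congr fun k => ?_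
    rw [hb1]

end Pool.Agent.Results.MP_b3b911_al.DependsOnGenerators
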