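import Mathlib
import Pool.Agent.Helper602.Growth.Defs
import Pool.Agent.Helper602.Growth.QDefs
import Pool.Agent.Helper602.Growth.JD2
import Pool.Agent.Helper602.Growth.N1
import Pool.Agent.Helper602.Growth.N13
import Pool.Agent.Helper602.Growth.N14
import Pool.Agent.Helper602.Growth.F1
import Pool.Agent.Helper602.Growth.F2
import Pool.Agent.Helper602.Growth.F3

set_option autoImplicit false

namespace Pool.Agent.Results.MP_b3b911_al.FiniteCommutator

open Filter Topology Pool.Agent.Helper602.Growth

/-- If the commutator subgroup of `G` is finite, then for every finite generating set the growth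
function is eventually a polynomial, and the second order term exists. -/
theorem result (G : Type) [Group G] (S : Finset G) (hS : Subgroup.closure (S : Set G) = ⊤)
    (hK : Finite (commutator G)) :
    (∃ P : Polynomial ℝ, ∀ᶠ k : ℕ in atTop, (beta S k : ℝ) = P.eval (k : ℝ)) ∧
      ∀ d : ℕ, HasDegree S d → ∃ c L : ℝ, SecondTerm S d c L := by
  classical
  have hfg : Group.FG G := Group.fg_iff.mpr ⟨S, hS, S.finite_toSet⟩
  have hfgA : Group.FG (Abelianization G) :=
    Group.fg_of_surjective (f := Abelianization.of) QuotientGroup.mk_surjective
  have hM : Module.Finite ℤ (Additive (Abelianization G)) := by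
    rw [Module.Finite.iff_addGroup_fg]
    infer_instance
  let e : Abelianization G ≃* Multiplicative (Additive (Abelianization G)) :=
    { toFun := fun a => Multiplicative.ofAdd (Additive.ofMul a)
      invFun := fun a => Additive.toMul (Multiplicative.toAdd a)
      left_inv := fun _ => rfl
      right_inv := fun _ => rfl
      map_mul' := fun _ _ => rfl }
  let π : G →* Multiplicative (Additive (Abelianization G)) :=
    e.toMonoidHom.comp Abelianization.of
  have hker : π.ker = commutator G := by
    ext g
    rw [MonoidHom.mem_ker]
    constructor
    · intro h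
      have h' : (Abelianization.of g : Abelianization G) = 1 := h
      have h2 : g ∈ (Abelianization.of : G →* Abelianization G).ker := h'
      rwa [Abelianization.ker_of] at h2
    · intro h
      have h2 : g ∈ (Abelianization.of : G →* Abelianization G).ker := by
        rwa [Abelianization.ker_of]
      exact h2
  have hfin : Finite π.ker := by rw [hker]; exact hK
  have hQ := F1.beta_QP_finite_kernel π hfin S
  refine ⟨F3.QP_poly hQ, ?_⟩
  intro n hn
  have hsurj : Function.Surjective (Abelianization.of : G →* Abelianization G) :=
    QuotientGroup.mk_surjective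
  let ψ : Multiplicative (Additive (Abelianization G)) →* Abelianization G := e.symm.toMonoidHom
  have hψ : Function.Injective ψ := e.symm.injective
  obtain ⟨c, hc, hlow⟩ := N13.poly_lower (S.image Abelianization.of)
    (F2.closure_image Abelianization.of hsurj S hS) ψ hψ
  obtain ⟨c₁, L, hc₁, hL⟩ := N14.secondTerm_of_QP S _ (N1.QP_mono le_rfl (Nat.zero_le _) hQ)
    c hc (fun k => (hlow k).trans (by exact_mod_cast F2.beta_image_le _ S k))
  have hd := JD2.hasDegree_of_tendsto S _ c₁ hc₁ hL.1
  have hnd : n = Module.finrank ℤ (Additive (Abelianization G)) := by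
    unfold HasDegree at hn hd
    rw [hn] at hd
    exact_mod_cast hd
  subst hnd
  exact ⟨c₁, L, hL⟩

end Pool.Agent.Results.MP_b3b911_al.FiniteCommutator
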